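import Pool.Agent.N646.TT.Nar

set_option autoImplicit false

/-!
# Progressions of every length of prime pairs `p, p + d` for one third of ALL even `d`

Let `b ≥ 1` and `ε > 0`. For all large `H`, at least `(1/3 - ε) H` of the multiples `d = 2 b k`, `k ≤ H`, of
`2 b` have the following property: for every length `l` and every radius `R` there is `C` such that for
arbitrarily large `x` there is `1 ≤ D ≤ (log x) ^ C` for which at least `x / (log x) ^ C` of the `m ≤ 2 x` are
such that, for each of the `l` numbers `p = m, m + D, …, m + (l - 1) D`, `p` and `p + d` are primes, and all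
primes at distance at most `R` from `p` are congruent to `p` modulo `2 b`.

In particular (`b = 1`) for at least one third of all even numbers `d` the statement of the question, with the
pairs `p, p + d` instead of the twin primes `p, p + 2`, is true for every length.

Proof: the coloured Maynard-Tao theorem with all patterns along narrow progressions for linear forms
(`Pool.Agent.Y827.HN.patR`, starting files: two of any four classes are hit), quadruples with all differences
in a set of more than two thirds of `{1, …, H}` (`Pool.Agent.TH899.UG.TD.quad`, starting files), and boxes.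
-/

namespace Pool.Agent.Results.MP_a1f59e_nt.AllLengthsForOneThird

open Finset Filter

open Classical in
/-- the number of the `1 ≤ m ≤ 2 x` such that for all `j < l` the numbers `p = m + j D` and `p + d` are primes
and all primes `q` at distance at most `R` from `p` are congruent to `p` modulo `2 b` -/
noncomputable def progressions (b d l D R x : ℕ) : ℕ :=
  ((Icc 1 (2 * x)).filter (fun m : ℕ => ∀ j < l, (m + j * D).Prime ∧ (m + j * D + d).Prime ∧
    ∀ q : ℕ, q.Prime → |(q : ℤ) - ((m + j * D : ℕ) : ℤ)| ≤ R →
      ((2 * b : ℕ) : ℤ) ∣ (q : ℤ) - ((m + j * D : ℕ) : ℤ))).card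

/-- for all `l` and `R` there is `C` such that for arbitrarily large `x` there is `1 ≤ D ≤ (log x) ^ C` with at
least `x / (log x) ^ C` progressions of length `l` and difference `D` below -/
def Good (b d : ℕ) : Prop := ∀ l R : ℕ, ∃ C : ℕ, ∃ᶠ x : ℕ in atTop, ∃ D : ℕ, 1 ≤ D ∧
    (D : ℝ) ≤ Real.log x ^ C ∧ (x : ℝ) / Real.log x ^ C ≤ (progressions b d l D R x : ℝ)

open Classical in
theorem result (b : ℕ) (hb : 1 ≤ b) (ε : ℝ) (hε : 0 < ε) : ∃ L : ℕ, ∀ H : ℕ, L ≤ H →
    (1 / 3 - ε) * (H : ℝ) ≤ (((Icc 1 H).filter (fun k : ℕ => Good b (2 * b * k))).card : ℝ) :=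
  Pool.Agent.N646.TT.third_ap b hb ε hε

end Pool.Agent.Results.MP_a1f59e_nt.AllLengthsForOneThird
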