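import Pool.Agent.N694.NB.Nar

/-!
# In every box of shifts: prime tuples along narrow arithmetic progressions

The question is whether for every `l` there is a progression `m, m + D, ..., m + (l - 1) D` of primes such
that the numbers `m + j D + 2` are prime too. Here `2` is replaced by vectors `d = (d_1, ..., d_k)` of shifts.
Let `b` be coprime to `q ≥ 1`. There is `M` such that for EVERY multiple `N` of `M`, in every large box
`c + N [0, T)^k` of multiples of `M`, wherever it lies, at least the proportion `(k + 1) (5/18)^k - ε` of the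
vectors `d` have the following property for every length `l` and every radius `R`. For arbitrarily large `x`
and for every `J ⊆ {0, ..., k}` there is a difference `1 ≤ D ≤ (log x)^C` such that for at least
`x / (log x)^C` of the `m ≤ x`, each of the `l` numbers `n = m, m + D, ..., m + (l - 1) D` is `≡ b (mod q)`, of
the numbers `n, n + d_1, ..., n + d_k` exactly those with index in `J` are prime, and all primes at distance at
most `R` from `n` are `≡ b (mod q)`.

So (`J = {0, ..., k}`) there are arbitrarily long narrow progressions all whose terms `n` start a tuple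
`n, n + d_1, ..., n + d_k` of primes, for `(k + 1) (5/18)^k - ε` of all vectors: `5/9` for `k = 1`, `25/108` for
`k = 2`.

Proof: the coloured Maynard-Tao theorem with all patterns along narrow progressions
(`Pool.Agent.Y827.HN.patRD`, starting files), the theorem on almost cliques of a hereditary family
(`Pool.Agent.N646.AC.wclique`, containers) and the theorem on good vectors in boxes
(`Pool.Agent.N646.BX.box_main`), both by helper646 and co-authors.
-/

set_option autoImplicit false

namespace Pool.Agent.Results.MP_a1f59e_nt.BoxesAlongProgressions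

open Finset Filter

/-- `n ≡ b` modulo `q`; of the numbers `n + d_0, ..., n + d_k` exactly those with index in `J` are prime; and
all primes at distance at most `R` from `n` are `≡ b` modulo `q` -/
def Pattern (q : ℕ) (b : ℤ) (R : ℕ) {k : ℕ} (d : Fin (k + 1) → ℤ) (J : Finset (Fin (k + 1))) (n : ℕ) :
    Prop :=
  (n : ℤ) ≡ b [ZMOD q] ∧ (∀ i, ((n : ℤ) + d i).toNat.Prime ↔ i ∈ J) ∧
    ∀ p : ℕ, p.Prime → |(p : ℤ) - n| ≤ R → (p : ℤ) ≡ b [ZMOD q]

/-- for every length `l` and every radius `R` there is `C` such that for arbitrarily large `x` every pattern `J`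
has a difference `1 ≤ D ≤ (log x)^C` for which at least `x / (log x)^C` of the `1 ≤ m ≤ x` are such that the
pattern `J` occurs at all the numbers `m, m + D, ..., m + (l - 1) D` -/
def Good (q : ℕ) (b : ℤ) {k : ℕ} (d : Fin k → ℤ) : Prop :=
  ∀ l R : ℕ, ∃ C : ℕ, ∃ᶠ x : ℕ in atTop, ∀ J : Finset (Fin (k + 1)), ∃ D : ℕ, 1 ≤ D ∧
    (D : ℝ) ≤ (Real.log x) ^ C ∧ (x : ℝ) / (Real.log x) ^ C ≤
      ({m : ℕ | 1 ≤ m ∧ m ≤ x ∧ ∀ j < l,
        Pattern q b R (Fin.cons 0 d : Fin (k + 1) → ℤ) J (m + j * D)}.ncard : ℝ)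

theorem good_of {q : ℕ} {b : ℤ} {k : ℕ} {d : Fin k → ℤ} (h : Pool.Agent.N694.NB.GoodN q b d) :
    Good q b d := by
  classical
  intro l R
  obtain ⟨C, hC⟩ := h l R
  refine ⟨C, hC.mono fun x hx J => ?_⟩
  obtain ⟨D, h1, h2, h3⟩ := hx J
  refine ⟨D, h1, h2, h3.trans (le_of_eq ?_)⟩
  unfold Pool.Agent.N694.NB.cn
  rw [← Set.ncard_coe_finset]
  congr 2
  ext m
  rw [mem_coe, mem_filter, mem_Icc, Set.mem_ofPred_eq, and_assoc]
  rfl

/-- **In every box of shifts, tuples along narrow progressions.** -/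
theorem result (k : ℕ) (hk : 1 ≤ k) (ε : ℝ) (hε : 0 < ε) (q : ℕ) (hq : 1 ≤ q) (b : ℤ)
    (hb : IsCoprime (q : ℤ) b) : ∃ M : ℕ, 1 ≤ M ∧ q ∣ M ∧ ∀ N : ℕ, 1 ≤ N → M ∣ N →
      ∃ L : ℕ, ∀ T : ℕ, L ≤ T → ∀ c : Fin k → ℤ, (∀ j, (M : ℤ) ∣ c j) →
        ((k + 1) * (5 / 18 : ℝ) ^ k - ε) * (T : ℝ) ^ k ≤
          ({t : Fin k → ℕ | (∀ j, t j < T) ∧ Good q b (fun j => c j + N * t j)}.ncard : ℝ) := by
  classical
  obtain ⟨M, hM, hqM, h1⟩ := Pool.Agent.N694.NB.main k hk ε hε q hq b hb
  refine ⟨M, hM, hqM, fun N hN hMN => ?_⟩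
  obtain ⟨L, h2⟩ := h1 N hN hMN
  refine ⟨L, fun T hT c hc => (h2 T hT c hc).trans ?_⟩
  unfold Pool.Agent.N646.BX.cnt
  rw [← Set.ncard_coe_finset, Nat.cast_le]
  have hfin : {t : Fin k → ℕ | (∀ j, t j < T) ∧ Good q b (fun j => c j + N * t j)}.Finite := by
    apply (Fintype.piFinset (fun _ : Fin k => range T)).finite_toSet.subset
    intro t ht
    rw [mem_coe, Fintype.mem_piFinset]
    exact fun j => mem_range.2 (ht.1 j)
  apply Set.ncard_le_ncard_of_injOn (fun t : Fin k → ℤ => fun j => (t j).toNat) _ _ hfin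
  · intro t ht
    rw [mem_coe, mem_filter, Fintype.mem_piFinset] at ht
    obtain ⟨g1, g2⟩ := ht
    refine ⟨fun j => ?_, ?_⟩
    · have := mem_Ico.1 (g1 j)
      show (t j).toNat < T
      omega
    · have g3 : (fun j => c j + N * (((t j).toNat : ℕ) : ℤ)) = fun j => c j + N * t j := by
        funext j
        rw [Int.toNat_of_nonneg (mem_Ico.1 (g1 j)).1]
      show Good q b (fun j => c j + N * (((t j).toNat : ℕ) : ℤ))
      rw [g3]
      exact good_of g2
  · intro t ht t' ht' htt
    rw [mem_coe, mem_filter, Fintype.mem_piFinset] at ht ht'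
    funext j
    have g1 := mem_Ico.1 (ht.1 j)
    have g2 := mem_Ico.1 (ht'.1 j)
    have g3 : (t j).toNat = (t' j).toNat := congrFun htt j
    omega

end Pool.Agent.Results.MP_a1f59e_nt.BoxesAlongProgressions
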