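import Pool.Agent.N39.RW.UniF

set_option autoImplicit false

/-!
# Progressions of almost twin primes with every admissible difference

For every `l` and every difference `b ≤ K₀ X` without a local obstruction (for instance every `b > 2` divisible by all
primes `≤ 2 l`), we count the `l`-term progressions `a, a + b, ..., a + (l - 1) b` for which the `2 l` numbers `a + k b`,
`a + k b + 2` are almost primes, any prescribed one of them being prime and any other prescribed one being a product of
at most two primes: in ALL short windows around a positive proportion of the integers their number has the order of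
magnitude predicted by Hardy and Littlewood, uniformly in `b`, with the singular series.
-/

namespace Pool.Agent.Results.MP_a1f59e_nt.EveryDifference

open Filter

/-- the shifts: `k b` for `t = 2 k`, `k b + 2` for `t = 2 k + 1` -/
def sh (l b : ℕ) (t : Fin (2 * l)) : ℕ := (t.val / 2) * b + 2 * (t.val % 2)

/-- the number of the residue classes modulo `p` which contain one of the shifts -/
def nu (l b p : ℕ) : ℕ := ((Finset.univ : Finset (Fin (2 * l))).image (fun t => sh l b t % p)).card

/-- the partial product over the primes `p ≤ X` of the singular series of the `2 l` shifts -/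
noncomputable def S (l b X : ℕ) : ℝ :=
  ∏ p ∈ (Finset.Icc 1 X).filter Nat.Prime, ((1 - (nu l b p : ℝ) / p) / (1 - 1 / (p : ℝ)) ^ (2 * l))

/-- the number with shift `i` is prime, the number with shift `j` is a product of at most two primes, and all `2 l`
numbers `a + k b`, `a + k b + 2`, `k < l`, are products of at most `r` primes, all larger than `z` -/
def Good (l b : ℕ) (i j : Fin (2 * l)) (r : ℕ) (z : ℝ) (a : ℕ) : Prop :=
  (a + sh l b i).Prime ∧ (a + sh l b j).primeFactorsList.length ≤ 2 ∧
    ∀ t, (a + sh l b t).primeFactorsList.length ≤ r ∧ ∀ q : ℕ, q.Prime → q ∣ a + sh l b t → z < (q : ℝ)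

/-- all prime factors of the `2 l` numbers are larger than `z` -/
def Sieved (l b : ℕ) (z : ℝ) (a : ℕ) : Prop :=
  ∀ t, ∀ q : ℕ, q.Prime → q ∣ a + sh l b t → z < (q : ℝ)

/-- `n` is regular: in ALL windows `(u, v]` with `u ≤ n ≤ v` and `K (log X) ^ (2 l) / S ≤ v - u ≤ n` there are at
least `c₁ S (v - u) / (log X) ^ (2 l)` good `a`, and at most `c₂ S (v - u) / (log X) ^ (2 l)` sieved `a`, at the level
`X ^ (1 / r)`. -/
def Regular (l b : ℕ) (i j : Fin (2 * l)) (r : ℕ) (c₁ c₂ K : ℝ) (X n : ℕ) : Prop :=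
  ∀ u v : ℕ, u ≤ n → n ≤ v → K * Real.log X ^ (2 * l) / S l b X ≤ (v : ℝ) - u → (v : ℝ) - u ≤ n →
    c₁ * S l b X * ((v : ℝ) - u) / Real.log X ^ (2 * l) ≤
      ({a : ℕ | u < a ∧ a ≤ v ∧ Good l b i j r ((X : ℝ) ^ (1 / (r : ℝ))) a}.ncard : ℝ) ∧
    ({a : ℕ | u < a ∧ a ≤ v ∧ Sieved l b ((X : ℝ) ^ (1 / (r : ℝ))) a}.ncard : ℝ) ≤
      c₂ * S l b X * ((v : ℝ) - u) / Real.log X ^ (2 * l)

theorem nu_lt (l b : ℕ) (hb : ∀ p : ℕ, p.Prime → p ≤ 2 * l → p ∣ b) (p : ℕ) (hp : p.Prime) : nu l b p < p := by
  classical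
  rcases Nat.lt_or_ge (2 * l) p with h | h
  · have h1 : nu l b p ≤ 2 * l := by
      unfold nu
      refine Finset.card_image_le.trans ?_
      rw [Finset.card_univ, Fintype.card_fin]
    omega
  · have hd := hb p hp h
    have hsub : (Finset.univ : Finset (Fin (2 * l))).image (fun t => sh l b t % p) ⊆ {0, 2 % p} := by
      intro c hc
      rw [Finset.mem_image] at hc
      obtain ⟨t, -, rfl⟩ := hc
      have e : sh l b t % p = (2 * (t.val % 2)) % p := by
        unfold sh
        rw [Nat.add_mod, Nat.mod_eq_zero_of_dvd (hd.mul_left _), zero_add, Nat.mod_mod]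
      rw [e, Finset.mem_insert, Finset.mem_singleton]
      rcases Nat.mod_two_eq_zero_or_one t.val with h2 | h2
      · left
        rw [h2, mul_zero, Nat.zero_mod]
      · right
        rw [h2, mul_one]
    have h3 := Finset.card_le_card hsub
    have h4 : ({0, 2 % p} : Finset ℕ).card < p := by
      rcases Nat.lt_or_ge p 3 with h5 | h5
      · have h6 : p = 2 := by
          have := hp.two_le
          omega
        subst h6
        decide
      · have := Finset.card_le_two (a := 0) (b := 2 % p)
        omega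
    unfold nu
    omega

theorem sh_inj (l b : ℕ) (hb : 2 < b) : Function.Injective (sh l b) := by
  intro t t' h
  unfold sh at h
  apply Fin.ext
  have h1 := Nat.div_add_mod t.val 2
  have h2 := Nat.div_add_mod t'.val 2
  have h3 := Nat.mod_lt t.val (show 0 < 2 by norm_num)
  have h4 := Nat.mod_lt t'.val (show 0 < 2 by norm_num)
  have h5 : t.val / 2 = t'.val / 2 := by
    rcases lt_trichotomy (t.val / 2) (t'.val / 2) with h6 | h6 | h6
    · exfalso
      have h7 : (t.val / 2 + 1) * b ≤ (t'.val / 2) * b := Nat.mul_le_mul_right _ h6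
      rw [Nat.add_mul, one_mul] at h7
      omega
    · exact h6
    · exfalso
      have h7 : (t'.val / 2 + 1) * b ≤ (t.val / 2) * b := Nat.mul_le_mul_right _ h6
      rw [Nat.add_mul, one_mul] at h7
      omega
  rw [h5] at h
  omega

theorem result (l : ℕ) (hl : 1 ≤ l) :
    (∀ b : ℕ, (∀ p : ℕ, p.Prime → p ≤ 2 * l → p ∣ b) → ∀ p : ℕ, p.Prime → nu l b p < p) ∧
    ∃ (r : ℕ) (c₁ c₂ K μ : ℝ), 1 ≤ r ∧ 0 < c₁ ∧ 0 < c₂ ∧ 0 < K ∧ 0 < μ ∧
    ∀ K₀ : ℕ, ∀ᶠ X : ℕ in atTop, ∀ (b : ℕ) (i j : Fin (2 * l)), i ≠ j → 2 < b → b ≤ K₀ * X →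
      (∀ p : ℕ, p.Prime → nu l b p < p) →
      μ * X ≤ ({n : ℕ | X < n ∧ n ≤ 2 * X ∧ Regular l b i j r c₁ c₂ K X n}.ncard : ℝ) := by
  classical
  refine ⟨nu_lt l, ?_⟩
  obtain ⟨r, hr, c₁, c₂, K, μ, hc₁, hc₂, hK, hμ, H⟩ := Pool.Agent.N39.RW.uniS (2 * l) (by omega)
  refine ⟨r, c₁, c₂, K, μ, hr, hc₁, hc₂, hK, hμ, fun K₀ => ?_⟩
  filter_upwards [H (l * K₀ + 2), eventually_ge_atTop 16] with X hX hX16
  intro b i j hij hb2 hbX hadm
  refine hX (sh l b) i j hij (sh_inj l b hb2) (by
      intro t
      unfold sh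
      have h1 : t.val / 2 ≤ l := by
        have := t.2
        omega
      have h2 : t.val % 2 ≤ 1 := by
        have := Nat.mod_lt t.val (show 0 < 2 by norm_num)
        omega
      calc t.val / 2 * b + 2 * (t.val % 2) ≤ l * (K₀ * X) + 2 * 1 :=
            Nat.add_le_add (Nat.mul_le_mul h1 hbX) (Nat.mul_le_mul_left _ h2)
        _ ≤ l * (K₀ * X) + 2 * X := by omega
        _ = (l * K₀ + 2) * X := by ring) (by
      intro p hp
      have h2 := hadm p hp
      have h2' : Pool.Agent.N39.RW.nuh (sh l b) p < p := h2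
      rw [← Pool.Agent.N39.RW.nuB_nuh _ p hp] at h2'
      by_contra hcon
      push Not at hcon
      have h3 : (Finset.range p).filter (fun r => Pool.Agent.N39.RW.QS (sh l b) p r) = Finset.range p :=
        Finset.filter_true_of_mem (fun n _ => hcon n)
      have h4 : Pool.Agent.H373R2.T7.nuB (Pool.Agent.N39.RW.QS (sh l b)) p = p := by
        unfold Pool.Agent.H373R2.T7.nuB
        have h5 := congrArg Finset.card h3
        rw [Finset.card_range] at h5
        refine Eq.trans ?_ h5
        congr
      omega)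

end Pool.Agent.Results.MP_a1f59e_nt.EveryDifference
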