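import Mathlib
import Pool.Agent.Y677.RSZ.FinInst

/-!
# Narrow progressions in arbitrary sets of rough twins

`n` is an `r`-rough twin if all prime factors of `n (n + 2)` are larger than `n ^ (1 / r)`; every twin prime is
one, and there are at least `κ X / log ^ 2 X` primes `p` in `(X, 2 X]` which are `r`-rough twins for which
`p + 2` has at most `r` prime factors. For EVERY set `A` of `r`-rough twins (for example the set of all twin
primes, or the almost twin primes just named) all but `ε Y / log ^ 2 X` of the elements of `A` in every window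
`(X, X + Y]`, `X ^ θ ≤ Y ≤ X`, are terms of `l`-term arithmetic progressions with a difference of at most
`(log X) ^ B` which are contained in `A` and in the window.

The proof is the relative Szemerédi theorem for sifted sets of the starting library (`Pool.Agent.Y677.RSZ`),
for prime arguments.
-/

set_option autoImplicit false

namespace Pool.Agent.Results.MP_a1f59e_nt.NarrowAlmostTwins

open Finset Filter

/-- the `r`-rough twins: all prime factors of `n (n + 2)` are larger than `n ^ (1 / r)` -/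
def RoughTwins (r : ℕ) : Set ℕ :=
  {n | ∀ p : ℕ, p.Prime → p ∣ n * (n + 2) → (n : ℝ) ^ (1 / (r : ℝ)) < (p : ℝ)}

/-- `m` is a term of a progression `a, a + b, ..., a + (l - 1) b` with `1 ≤ b ≤ D` all of whose `l` terms are
in `A` and in `(X, X + Y]` -/
def InProgression (A : Set ℕ) (l : ℕ) (D : ℝ) (X Y m : ℕ) : Prop :=
  ∃ a b : ℕ, 1 ≤ b ∧ (b : ℝ) ≤ D ∧ (∀ k < l, a + k * b ∈ A ∧ X < a + k * b ∧ a + k * b ≤ X + Y) ∧
    ∃ k < l, m = a + k * b

/-- no prime divides `m (m + 2)` for all `m` -/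
lemma adm (p : ℕ) (hp : p.Prime) : ∃ m : ℕ, ¬ p ∣ m ∧ ¬ p ∣ m + 2 := by
  rcases lt_or_ge p 3 with h | h
  · have h2 : p = 2 := le_antisymm (by omega) hp.two_le
    subst h2
    exact ⟨1, by decide, by decide⟩
  · rcases eq_or_lt_of_le h with h3 | h3
    · subst h3
      exact ⟨2, by decide, by decide⟩
    · refine ⟨1, fun hd => ?_, fun hd => ?_⟩
      · exact hp.one_lt.ne' (Nat.dvd_one.1 hd)
      · have := Nat.le_of_dvd (by norm_num) hd
        omega

/-- twin primes are rough twins -/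
lemma twin_rough {r : ℕ} (hr : 2 ≤ r) {p : ℕ} (h1 : p.Prime) (h2 : (p + 2).Prime) : p ∈ RoughTwins r := by
  intro q hq hd
  have hp2 : 2 ≤ p := h1.two_le
  rcases (hq.dvd_mul).1 hd with h | h
  · rw [(Nat.prime_dvd_prime_iff_eq hq h1).1 h]
    exact Pool.Agent.TH977.PW.rpow_lt_of_le r p p hr hp2 le_rfl
  · rw [(Nat.prime_dvd_prime_iff_eq hq h2).1 h]
    exact Pool.Agent.TH977.PW.rpow_lt_of_le r p (p + 2) hr hp2 (by omega)

theorem result (θ : ℝ) (hθ : 0 < θ) (hθ1 : θ ≤ 1) :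
    ∃ r₀ : ℕ, 2 ≤ r₀ ∧ ∀ r : ℕ, r₀ ≤ r →
      (∀ p : ℕ, p.Prime → (p + 2).Prime → p ∈ RoughTwins r) ∧
      (∃ κ : ℝ, 0 < κ ∧ ∀ᶠ X : ℕ in atTop, κ * X / Real.log X ^ 2 ≤
        ({p : ℕ | X < p ∧ p ≤ 2 * X ∧ p.Prime ∧ p ∈ RoughTwins r ∧
          (p + 2).primeFactorsList.length ≤ r}.ncard : ℝ)) ∧
      ∀ l : ℕ, 2 ≤ l → ∀ ε : ℝ, 0 < ε → ∃ B : ℕ, ∀ᶠ X : ℕ in atTop, ∀ Y : ℕ,
        (X : ℝ) ^ θ ≤ Y → Y ≤ X → ∀ A : Set ℕ, A ⊆ RoughTwins r →
          ({m : ℕ | X < m ∧ m ≤ X + Y ∧ m ∈ A ∧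
            ¬ InProgression A l (Real.log X ^ B) X Y m}.ncard : ℝ) ≤ ε * Y / Real.log X ^ 2 := by
  classical
  have hcast : ∀ (m : ℕ), ((1 : ℕ) : ℤ) * (m : ℤ) + (2 : ℤ) = ((m + 2 : ℕ) : ℤ) := by
    intro m
    push_cast
    ring
  obtain ⟨r0, hr0, h⟩ := Pool.Agent.Y677.RSZ.narrow_lin_prime (fun _ : Fin 1 => 1) (fun _ => (2 : ℤ))
    (fun _ => one_pos) (fun _ => by rw [Nat.cast_one]; exact isCoprime_one_left)
    (fun _ _ _ _ => Subsingleton.elim _ _) (fun _ h => by simp at h)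
    (fun p hp => by
      obtain ⟨m, h1, h2⟩ := adm p hp
      refine ⟨m, h1, fun _ => ?_⟩
      rw [hcast, Int.natCast_dvd_natCast]
      exact h2)
    (fun r => RoughTwins r)
    (fun r => {p | p.Prime ∧ p ∈ RoughTwins r ∧ (p + 2).primeFactorsList.length ≤ r}) 2
    (by rw [Fintype.card_fin])
    (fun r m _ hm => ⟨fun p hp hd => hm p hp (hd.mul_right _), fun _ p hp hd => hm p hp (by
      rw [hcast, Int.natCast_dvd_natCast] at hd
      exact hd.mul_left _)⟩)
    (fun r m h2r hm h1 h2 => by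
      refine ⟨hm, fun p hp hd => ?_, ?_⟩
      · rcases (hp.dvd_mul).1 hd with h3 | h3
        · rw [(Nat.prime_dvd_prime_iff_eq hp hm).1 h3]
          exact Pool.Agent.TH977.PW.rpow_lt_of_le r m m h2r hm.two_le le_rfl
        · refine h1 0 p hp ?_
          rw [hcast, Int.natCast_dvd_natCast]
          exact h3
      · have h3 := h2 0
        rw [hcast, Int.natAbs_natCast] at h3
        exact h3) θ hθ hθ1
  refine ⟨r0, hr0, fun r hr => ⟨fun p h1 h2 => twin_rough (hr0.trans hr) h1 h2, ?_, ?_⟩⟩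
  · obtain ⟨κ, hκ, hk⟩ := (h r hr).1
    refine ⟨κ, hκ, hk.mono fun X hX => hX.trans (le_of_eq ?_)⟩
    unfold Pool.Agent.TH977.PW.N
    rw [← Set.ncard_coe_finset]
    congr 2
    ext p
    simp only [coe_filter, mem_Ioc, Set.mem_setOf_eq]
    tauto
  · intro l hl ε hε
    obtain ⟨B, hB⟩ := (h r hr).2 l hl ε hε
    refine ⟨B, hB.mono fun X hX Y hY1 hY2 A hA => (le_of_eq ?_).trans (hX Y hY1 hY2 A hA)⟩
    unfold Pool.Agent.TH977.PW.N
    rw [← Set.ncard_coe_finset]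
    congr 2
    ext m
    simp only [coe_filter, mem_Ioc, Set.mem_setOf_eq, Pool.Agent.Y677.RSZ.Outside]
    constructor
    · rintro ⟨h1, h2, h3, h4⟩
      exact ⟨⟨h1, h2⟩, h3, h4⟩
    · rintro ⟨⟨h1, h2⟩, h3, h4⟩
      exact ⟨h1, h2, h3, h4⟩

end Pool.Agent.Results.MP_a1f59e_nt.NarrowAlmostTwins
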